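import Pool.Agent.Helper83.CB.Defs4

set_option autoImplicit false

/-!
# GR1: the curvature of the Grassmann connection
-/

open Filter Topology MeasureTheory

namespace Pool.Agent.Helper83.CB

theorem gr1_comp {ι : Type} [Fintype ι] [DecidableEq ι] {V1 V2 V3 : Type*}
    [NormedAddCommGroup V1] [NormedSpace ℂ V1]
    [NormedAddCommGroup V2] [NormedSpace ℂ V2] [NormedAddCommGroup V3] [NormedSpace ℂ V3]
    {f : (ι → ℝ) → V2 →L[ℂ] V3} {g : (ι → ℝ) → V1 →L[ℂ] V2} {x : ι → ℝ}
    (hf : DifferentiableAt ℝ f x) (hg : DifferentiableAt ℝ g x) :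
    DifferentiableAt ℝ (fun y => (f y).comp (g y)) x ∧
    ∀ μ, pd (fun y => (f y).comp (g y)) x μ =
      (pd f x μ).comp (g x) + (f x).comp (pd g x μ) := by
  let B : (V2 →L[ℂ] V3) →L[ℝ] (V1 →L[ℂ] V2) →L[ℝ] (V1 →L[ℂ] V3) :=
    LinearMap.mkContinuous₂ (LinearMap.mk₂ ℝ (fun a b => a.comp b)
      (fun a a' b => by ext; simp) (fun c a b => by ext; simp)
      (fun a b b' => by ext; simp) (fun c a b => by ext; simp)) 1
      (fun a b => by
        rw [one_mul]
        exact ContinuousLinearMap.opNorm_comp_le a b)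
  have h := B.hasFDerivAt_of_bilinear hf.hasFDerivAt hg.hasFDerivAt
  refine ⟨h.differentiableAt, fun μ => ?_⟩
  unfold pd
  have h2 : fderiv ℝ (fun y => (f y).comp (g y)) x = _ := h.fderiv
  rw [h2]
  simp only [_root_.add_apply, ContinuousLinearMap.precompR_apply,
    ContinuousLinearMap.precompL_apply]
  rw [add_comm]
  rfl

theorem gr1_congr {ι : Type} [Fintype ι] [DecidableEq ι] {W : Type*} [NormedAddCommGroup W]
    [NormedSpace ℝ W] {f g : (ι → ℝ) → W} {x : ι → ℝ} (h : f =ᶠ[𝓝 x] g) (μ : ι) :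
    pd f x μ = pd g x μ := by
  unfold pd
  rw [h.fderiv_eq]

/-- **GR1** -/
theorem st_GR1 : ST_GR1 := by
  intro ι _ _ n K L π x hK hL hKL hLK hst
  have hLKe : (fun y => (L y).comp (K y)) =ᶠ[𝓝 x] π := hLK
  obtain ⟨hd1, hp1⟩ := gr1_comp (ι := ι) hL hK
  have hπd : DifferentiableAt ℝ π x := hd1.congr_of_eventuallyEq hLKe.symm
  have hπ : ∀ μ, pd π x μ = (pd L x μ).comp (K x) + (L x).comp (pd K x μ) := by
    intro μ
    rw [← gr1_congr hLKe μ, hp1 μ]
  -- derivative of `K L = 1`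
  obtain ⟨hd2, hp2⟩ := gr1_comp (ι := ι) hK hL
  have hKLe : (fun y => (K y).comp (L y)) =ᶠ[𝓝 x]
      fun _ => ContinuousLinearMap.id ℂ (E n) := hKL
  have hz : ∀ μ, (pd K x μ).comp (L x) + (K x).comp (pd L x μ) = 0 := by
    intro μ
    rw [← hp2 μ, gr1_congr hKLe μ]
    unfold pd
    rw [fderiv_fun_const]
    rfl
  have hKLx : (K x).comp (L x) = ContinuousLinearMap.id ℂ (E n) := hKL.self_of_nhds
  have hLKx : (L x).comp (K x) = π x := hLK.self_of_nhds
  refine ⟨?_, ?_, ?_⟩
  · intro μ ν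
    have e1 : ∀ w, K x (L x w) = w := fun w => by
      have := DFunLike.congr_fun hKLx w
      exact this
    have e2 : ∀ μ w, pd K x μ (L x w) = - K x (pd L x μ w) := fun μ w => by
      have := DFunLike.congr_fun (hz μ) w
      exact eq_neg_of_add_eq_zero_left this
    ext1 w
    unfold Fcon Acon Qx
    simp only [hπ, LinearMap.zero_apply, smul_zero, sub_self, zero_add, LinearMap.id_apply,
      add_zero]
    simp only [ContinuousLinearMap.mul_def, ContinuousLinearMap.comp_apply, _root_.add_apply,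
      _root_.sub_apply, map_add, map_sub, e1, e2, map_neg]
    abel
  · intro μ
    have hse : (fun y => star (π y)) =ᶠ[𝓝 x] π := hst
    have h := gr1_congr hse μ
    conv_rhs => rw [← h]
    unfold pd
    have h3 : HasFDerivAt (fun y => star (π y))
        (((starL' ℝ : M (n + 1) ≃L[ℝ] M (n + 1)) : M (n + 1) →L[ℝ] M (n + 1)).comp
          (fderiv ℝ π x)) x :=
      (((starL' ℝ : M (n + 1) ≃L[ℝ] M (n + 1)) :
        M (n + 1) →L[ℝ] M (n + 1)).hasFDerivAt).comp x hπd.hasFDerivAt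
    rw [h3.fderiv]
    rfl
  · intro μ
    have hpp : (fun y => (π y).comp (π y)) =ᶠ[𝓝 x] π := by
      filter_upwards [hKL, hLK] with y h1 h2
      rw [← h2]
      ext1 w
      have := DFunLike.congr_fun h1 (K y w)
      simp only [ContinuousLinearMap.comp_apply, ContinuousLinearMap.id_apply] at this ⊢
      rw [this]
    obtain ⟨-, hp3⟩ := gr1_comp (ι := ι) hπd hπd
    have h := hp3 μ
    rw [gr1_congr hpp μ] at h
    conv_lhs => rw [h]
    exact add_comm _ _

end Pool.Agent.Helper83.CB
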